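import Pool.Agent.helper91.ADV.SpecX

/-!
# adv:ALF (MP_069684_lc)
-/

set_option autoImplicit false

namespace Pool.Agent.ADV

open Finset Pool.Agent.helper38.Neg Pool.Agent.helper55.NT Pool.Agent.LNB

/-- the slice functions at the levels `l i`, alternating -/
def ALF_G {n : ℕ} (l : ℕ → ℕ) (f : Fn n) (i : ℕ) : Fn n :=
  win (l i) 1 (if i % 2 = 0 then f else fun x => !(f x))

theorem ALF_lo {n : ℕ} (l : ℕ → ℕ) (f : Fn n) (i : ℕ) (x : Fin n → Bool) (h : wt x < l i) :
    ALF_G l f i x = false := by
  unfold ALF_G win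
  rw [decide_eq_false (by omega), decide_eq_false (by omega)]
  simp

theorem ALF_hi {n : ℕ} (l : ℕ → ℕ) (f : Fn n) (i : ℕ) (x : Fin n → Bool) (h : l i < wt x) :
    ALF_G l f i x = true := by
  unfold ALF_G win
  rw [decide_eq_true (by omega)]
  simp

theorem ALF_ev {n : ℕ} (l : ℕ → ℕ) (f : Fn n) (i : ℕ) (x : Fin n → Bool) (h : wt x = l (2 * i)) :
    ALF_G l f (2 * i) x = f x := by
  unfold ALF_G win
  rw [decide_eq_false (by omega), decide_eq_true (by omega), if_pos (by omega)]
  simp

theorem ALF_od {n : ℕ} (l : ℕ → ℕ) (f : Fn n) (i : ℕ) (x : Fin n → Bool)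
    (h : wt x = l (2 * i + 1)) : ALF_G l f (2 * i + 1) x = !(f x) := by
  unfold ALF_G win
  rw [decide_eq_false (by omega), decide_eq_true (by omega), if_neg (by omega)]
  simp

/-- enumeration of `L`, extended to a strictly increasing sequence -/
theorem ALF_enum (L : Finset ℕ) : ∃ l : ℕ → ℕ, StrictMono l ∧
    L = (Finset.range L.card).image l := by
  refine ⟨fun i => if h : i < L.card then L.orderEmbOfFin rfl ⟨i, h⟩ else L.sup id + 1 + i, ?_, ?_⟩
  · intro i j hij
    show (if h : i < L.card then L.orderEmbOfFin rfl ⟨i, h⟩ else L.sup id + 1 + i) <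
      (if h : j < L.card then L.orderEmbOfFin rfl ⟨j, h⟩ else L.sup id + 1 + j)
    by_cases hj : j < L.card
    · have hi : i < L.card := hij.trans hj
      rw [dif_pos hi, dif_pos hj]
      exact (L.orderEmbOfFin rfl).strictMono (by simpa using hij)
    · rw [dif_neg hj]
      by_cases hi : i < L.card
      · rw [dif_pos hi]
        have h1 : L.orderEmbOfFin rfl ⟨i, hi⟩ ∈ L := Finset.orderEmbOfFin_mem L rfl _
        have h2 : id (L.orderEmbOfFin rfl ⟨i, hi⟩) ≤ L.sup id := Finset.le_sup h1
        rw [id] at h2
        omega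
      · rw [dif_neg hi]
        omega
  · ext w
    rw [Finset.mem_image]
    constructor
    · intro hw
      have h1 : w ∈ Set.range (L.orderEmbOfFin rfl) := by
        rw [Finset.range_orderEmbOfFin]
        exact hw
      obtain ⟨i, hi⟩ := h1
      refine ⟨i.1, Finset.mem_range.2 i.2, ?_⟩
      show (if h : i.1 < L.card then L.orderEmbOfFin rfl ⟨i.1, h⟩ else L.sup id + 1 + i.1) = w
      rw [dif_pos i.2]
      exact hi
    · rintro ⟨i, hi, rfl⟩
      have hi' : i < L.card := Finset.mem_range.1 hi
      show (if h : i < L.card then L.orderEmbOfFin rfl ⟨i, h⟩ else L.sup id + 1 + i) ∈ L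
      rw [dif_pos hi']
      exact Finset.orderEmbOfFin_mem L rfl _

/-- the number of levels below `w` -/
theorem ALF_cut (l : ℕ → ℕ) (hl : StrictMono l) (K w : ℕ) : ∃ j ≤ K,
    (((Finset.range K).image l).filter fun a => a < w).card = j ∧
    (∀ i < j, l i < w) ∧ (∀ i, j ≤ i → i < K → w ≤ l i) ∧
    (w ∈ (Finset.range K).image l ↔ j < K ∧ l j = w) := by
  classical
  have hex : ∃ j, K ≤ j ∨ w ≤ l j := ⟨K, Or.inl le_rfl⟩
  have hj := Nat.find_spec hex
  have hmin : ∀ i < Nat.find hex, ¬ (K ≤ i ∨ w ≤ l i) := fun i hi => Nat.find_min hex hi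
  have hjK : Nat.find hex ≤ K := Nat.find_min' hex (Or.inl le_rfl)
  generalize Nat.find hex = j at hj hmin hjK
  have h1 : ∀ i < j, l i < w := fun i hi => by
    have := hmin i hi
    push Not at this
    exact this.2
  have h2 : ∀ i, j ≤ i → i < K → w ≤ l i := by
    intro i hi hiK
    rcases hj with hj | hj
    · omega
    · exact hj.trans (hl.monotone hi)
  refine ⟨j, hjK, ?_, h1, h2, ?_⟩
  · have h3 : (((Finset.range K).image l).filter fun a => a < w) = (Finset.range j).image l := by
      ext a
      rw [Finset.mem_filter, Finset.mem_image, Finset.mem_image]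
      constructor
      · rintro ⟨⟨i, hi, rfl⟩, ha⟩
        refine ⟨i, ?_, rfl⟩
        rw [Finset.mem_range] at hi ⊢
        by_contra hc
        have := h2 i (not_lt.1 hc) hi
        omega
      · rintro ⟨i, hi, rfl⟩
        rw [Finset.mem_range] at hi
        exact ⟨⟨i, Finset.mem_range.2 (by omega), rfl⟩, h1 i hi⟩
    rw [h3, Finset.card_image_of_injective _ hl.injective, Finset.card_range]
  · rw [Finset.mem_image]
    constructor
    · rintro ⟨i, hi, hw⟩
      rw [Finset.mem_range] at hi
      have hji : ¬ i < j := fun h => by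
        have := h1 i h
        omega
      have hij : ¬ j < i := fun h => by
        have a1 := hl h
        have a2 := h2 j le_rfl (by omega)
        omega
      have : i = j := by omega
      subst this
      exact ⟨hi, hw⟩
    · rintro ⟨hjK', hw⟩
      exact ⟨j, Finset.mem_range.2 hjK', hw⟩

/-- the values of the slice functions -/
theorem ALF_formula {n : ℕ} (l : ℕ → ℕ) (hl : StrictMono l) (m : ℕ) (f : Fn n) (x : Fin n → Bool) :
    alt ((Finset.range (2 * m + 1)).image l) f x =
      (decide (∃ a < m, ALF_G l f (2 * a) x = true ∧ ALF_G l f (2 * a + 1) x = false) ||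
        ALF_G l f (2 * m) x) := by
  obtain ⟨j, hjK, hcard, h1, h2, hmem⟩ := ALF_cut l hl (2 * m + 1) (wt x)
  have hG1 : ∀ i < j, ALF_G l f i x = true := fun i hi => ALF_hi l f i x (h1 i hi)
  have hG0 : ∀ i, j < i → i < 2 * m + 1 → ALF_G l f i x = false := by
    intro i hi hiK
    apply ALF_lo
    have a1 := h2 j le_rfl (by omega)
    have a2 := hl hi
    omega
  unfold alt
  by_cases hw : wt x ∈ (Finset.range (2 * m + 1)).image l
  · rw [if_pos hw]
    obtain ⟨hjK', hlj⟩ := hmem.1 hw
    obtain ⟨i, hi | hi⟩ := Nat.even_or_odd' j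
    · -- j even
      have hv : ALF_G l f (2 * i) x = f x := ALF_ev l f i x (by rw [← hi, hlj])
      have hno : ¬ ∃ a < m, a ≠ i ∧ ALF_G l f (2 * a) x = true ∧ ALF_G l f (2 * a + 1) x = false := by
        rintro ⟨a, ha, hai, h3, h4⟩
        rcases lt_or_gt_of_ne hai with h | h
        · rw [hG1 (2 * a + 1) (by omega)] at h4
          exact Bool.noConfusion h4
        · rw [hG0 (2 * a) (by omega) (by omega)] at h3
          exact Bool.noConfusion h3
      rw [Bool.eq_iff_iff, Bool.or_eq_true, decide_eq_true_eq]
      constructor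
      · intro hf
        by_cases him : i < m
        · left
          refine ⟨i, him, ?_, ?_⟩
          · rw [hv]
            exact hf
          · exact hG0 (2 * i + 1) (by omega) (by omega)
        · right
          have : i = m := by omega
          subst this
          rw [hv]
          exact hf
      · rintro (⟨a, ha, h3, h4⟩ | h3)
        · by_cases hai : a = i
          · subst hai
            rw [← hv]
            exact h3
          · exact absurd ⟨a, ha, hai, h3, h4⟩ hno
        · by_cases him : i = m
          · subst him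
            rw [← hv]
            exact h3
          · rw [hG0 (2 * m) (by omega) (by omega)] at h3
            exact Bool.noConfusion h3
    · -- j odd
      have hv : ALF_G l f (2 * i + 1) x = !(f x) := ALF_od l f i x (by rw [← hi, hlj])
      rw [Bool.eq_iff_iff, Bool.or_eq_true, decide_eq_true_eq]
      constructor
      · intro hf
        left
        refine ⟨i, by omega, hG1 (2 * i) (by omega), ?_⟩
        rw [hv, hf]
        rfl
      · rintro (⟨a, ha, h3, h4⟩ | h3)
        · rcases lt_trichotomy a i with h | h | h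
          · rw [hG1 (2 * a + 1) (by omega)] at h4
            exact Bool.noConfusion h4
          · subst h
            rw [hv] at h4
            simpa using h4
          · rw [hG0 (2 * a) (by omega) (by omega)] at h3
            exact Bool.noConfusion h3
        · rw [hG0 (2 * m) (by omega) (by omega)] at h3
          exact Bool.noConfusion h3
  · rw [if_neg hw, hcard]
    have hG0' : ∀ i, j ≤ i → i < 2 * m + 1 → ALF_G l f i x = false := by
      intro i hi hiK
      apply ALF_lo
      have a1 := h2 i hi hiK
      have a2 : wt x ≠ l i := fun h => hw (by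
        rw [Finset.mem_image]
        exact ⟨i, Finset.mem_range.2 hiK, h.symm⟩)
      omega
    rw [Bool.eq_iff_iff, Bool.or_eq_true, decide_eq_true_eq, decide_eq_true_eq]
    constructor
    · intro hodd
      obtain ⟨i, hi⟩ : ∃ i, j = 2 * i + 1 := ⟨j / 2, by omega⟩
      by_cases him : i < m
      · left
        exact ⟨i, him, hG1 (2 * i) (by omega), hG0' (2 * i + 1) (by omega) (by omega)⟩
      · right
        exact hG1 (2 * m) (by omega)
    · rintro (⟨a, ha, h3, h4⟩ | h3)
      · by_contra hc
        have h5 : ¬ j ≤ 2 * a := fun h => by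
          rw [hG0' (2 * a) h (by omega)] at h3
          exact Bool.noConfusion h3
        have h6 : ¬ 2 * a + 1 < j := fun h => by
          rw [hG1 (2 * a + 1) h] at h4
          exact Bool.noConfusion h4
        omega
      · by_contra hc
        have h5 : ¬ j ≤ 2 * m := fun h => by
          rw [hG0' (2 * m) h (by omega)] at h3
          exact Bool.noConfusion h3
        omega

theorem ALF_rel (hSLF : SLF_stmt) {n s : ℕ} (l : ℕ → ℕ) (C : Circuit n s) (o : Fin (n + s)) (i : ℕ) :
    Rel ∅ (2 * (n + 2) ^ 3 + 2 * (s + 1) + 2) 0 {ALF_G l (fun x => C.val x o) i} := by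
  by_cases hi : i % 2 = 0
  · have h := hSLF n s (l i) C o
    refine h.mono le_rfl ?_ (by omega) le_rfl
    rintro g rfl
    rw [Set.mem_singleton_iff]
    unfold ALF_G
    rw [if_pos hi]
  · have h := hSLF n (s + 1) (l i) (Circuit.snoc C (Gate.not o)) (Fin.last (n + s))
    refine h.mono le_rfl ?_ (by omega) le_rfl
    rintro g rfl
    rw [Set.mem_singleton_iff]
    unfold ALF_G
    rw [if_neg hi]
    have e : (fun x => (Circuit.snoc C (Gate.not o)).val x (Fin.last (n + s))) =
        fun x => !(C.val x o) := by
      funext x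
      simp [Circuit.val, Gate.eval]
    rw [e]

theorem ALF (h1 : SLF_stmt) : ALF_stmt := by
  intro n s r L C o hcard
  obtain ⟨m, hm⟩ : ∃ m, 2 ^ r = m + 1 := ⟨2 ^ r - 1, by
    have : 0 < 2 ^ r := by positivity
    omega⟩
  have hm2 : 2 ^ (r + 1) = 2 * m + 2 := by rw [pow_succ, hm]; ring
  obtain ⟨l, hl, hLl⟩ := ALF_enum L
  have hK : L.card = 2 * m + 1 := by omega
  rw [hK] at hLl
  set f : Fn n := fun x => C.val x o with hf
  set M : ℕ := 2 * (n + 2) ^ 3 + 2 * (s + 1) + 2 with hM
  set t : ℕ → Fn n := fun i => ALF_G l f (2 * i + 1) with ht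
  have hsort : ∀ j x, t (j + 1) x = true → t j x = true := by
    intro j x h
    apply ALF_hi
    by_contra hlt
    have h3 : l (2 * j + 1) < l (2 * (j + 1) + 1) := hl (by omega)
    have h2 : t (j + 1) x = false := ALF_lo l f _ x (by omega)
    rw [h2] at h
    exact Bool.noConfusion h
  set A : Set (Fn n) := ⋃ i ∈ Finset.range (2 * m + 1), {ALF_G l f i} with hA
  have hmA : ∀ i, i < 2 * m + 1 → ALF_G l f i ∈ A := by
    intro i hi
    simp only [hA, Set.mem_iUnion]
    exact ⟨i, Finset.mem_range.2 hi, rfl⟩
  have h1' : Rel ∅ ((2 * m + 1) * M) 0 A := by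
    have := Rel.biUnion (F := (∅ : Set (Fn n))) (Finset.range (2 * m + 1)) (fun i => {ALF_G l f i})
      (fun i _ => ALF_rel h1 l C o i)
    rwa [Finset.card_range] at this
  have h2 : Rel A (4 * 2 ^ r) r (Ns r t) := by
    refine (inv_rel r t hsort).mono ?_ subset_rfl le_rfl le_rfl
    intro g hg
    simp only [As, Set.mem_iUnion, Set.mem_singleton_iff, Finset.mem_range] at hg
    obtain ⟨j, hj, rfl⟩ := hg
    exact hmA _ (by omega)
  have hN : ∀ j < m, (fun x => !(t j x)) ∈ Ns r t := fun j hj => mem_Ns (by omega)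
  set F : Set (Fn n) := A ∪ Ns r t with hF
  have h3 : ∀ i ≤ m, Rel F (2 * i + 1) 0 {fun x => decide (∃ a < i, ALF_G l f (2 * a) x = true ∧
      ALF_G l f (2 * a + 1) x = false)} := by
    intro i
    induction i with
    | zero =>
      intro _
      refine (Rel.const F false).mono le_rfl ?_ (by omega) le_rfl
      rintro g rfl
      rw [Set.mem_singleton_iff]
      funext x
      exact decide_eq_false (by
        rintro ⟨a, ha, _⟩
        omega)
    | succ i ih =>
      intro hi
      have h5 := ih (by omega)
      have h6 : Rel F 1 0 {fun x => ALF_G l f (2 * i) x && (!(t i x))} :=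
        Rel.and (Or.inl (hmA _ (by omega))) (Or.inr (hN i (by omega)))
      have h7 := h5.union h6
      have h8 : Rel (F ∪ ({fun x => decide (∃ a < i, ALF_G l f (2 * a) x = true ∧
            ALF_G l f (2 * a + 1) x = false)} ∪
          {fun x => ALF_G l f (2 * i) x && (!(t i x))})) 1 0
          {fun x => decide (∃ a < i, ALF_G l f (2 * a) x = true ∧
            ALF_G l f (2 * a + 1) x = false) ||
            (ALF_G l f (2 * i) x && (!(t i x)))} :=
        Rel.or (u := fun x => decide (∃ a < i, ALF_G l f (2 * a) x = true ∧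
            ALF_G l f (2 * a + 1) x = false))
          (v := fun x => ALF_G l f (2 * i) x && (!(t i x)))
          (Or.inr (Or.inl rfl)) (Or.inr (Or.inr rfl))
      refine (h7.trans' h8).mono le_rfl ?_ (by omega) le_rfl
      rintro g rfl
      rw [Set.mem_singleton_iff]
      funext x
      rw [Bool.eq_iff_iff]
      simp only [Bool.and_eq_true, Bool.or_eq_true, decide_eq_true_eq, Bool.not_eq_true',
        ht]
      constructor
      · rintro ⟨a, ha, a1, a2⟩
        by_cases hai : a < i
        · exact Or.inl ⟨a, hai, a1, a2⟩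
        · have : a = i := by omega
          subst this
          exact Or.inr ⟨a1, a2⟩
      · rintro (⟨a, ha, a1, a2⟩ | ⟨a1, a2⟩)
        · exact ⟨a, by omega, a1, a2⟩
        · exact ⟨i, by omega, a1, a2⟩
  have h4 := h3 m le_rfl
  have h5 : Rel (F ∪ {fun x => decide (∃ a < m, ALF_G l f (2 * a) x = true ∧
      ALF_G l f (2 * a + 1) x = false)}) 1 0
      {fun x => decide (∃ a < m, ALF_G l f (2 * a) x = true ∧
      ALF_G l f (2 * a + 1) x = false) || ALF_G l f (2 * m) x} :=
    Rel.or (u := fun x => decide (∃ a < m, ALF_G l f (2 * a) x = true ∧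
      ALF_G l f (2 * a + 1) x = false)) (Or.inr rfl)
      (Or.inl (Or.inl (hmA _ (by omega))))
  have h6 := h4.trans' h5
  have h7 := h2.trans' (H := {fun x => decide (∃ a < m, ALF_G l f (2 * a) x = true ∧
      ALF_G l f (2 * a + 1) x = false) || ALF_G l f (2 * m) x}) h6
  have h8 := h1'.trans' (h7.mono (F' := ∅ ∪ A) Set.subset_union_right le_rfl le_rfl le_rfl)
  refine h8.mono le_rfl ?_ ?_ (by omega)
  · rintro g rfl
    rw [Set.mem_singleton_iff]
    funext x
    rw [hLl]
    exact ALF_formula l hl m f x
  · rw [hm2, hm]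
    have e : 2 * (n + 2) ^ 3 + 2 * s + 10 = M + 6 := by omega
    rw [e]
    have e1 : (2 * m + 1) * M + M = (2 * m + 2) * M := by ring
    have e2 : (2 * m + 2) * (M + 6) = (2 * m + 2) * M + (2 * m + 2) * 6 := by ring
    rw [e2]
    generalize (2 * m + 1) * M = a at e1 ⊢
    generalize (2 * m + 2) * M = b at e1 ⊢
    omega

end Pool.Agent.ADV
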